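import Pool.Agent.J6H52.Osc.Defs

/-!
# Growth functions of semigroups: submultiplicativity and the exponential dichotomy
-/

universe u

namespace Pool.Agent.J6H52.Osc

open Filter

section growth

variable {S : Type u} [Semigroup S]

theorem foldl_mul (a b : S) (l : List S) :
    l.foldl (fun a b => a * b) (a * b) = a * l.foldl (fun a b => a * b) b := by
  induction l generalizing b with
  | nil => rfl
  | cons y l ih =>
    simp only [List.foldl_cons]
    rw [mul_assoc, ih]

theorem ball_mono (X : Set S) {m n : ℕ} (h : m ≤ n) : ball X m ⊆ ball X n := by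
  rintro s ⟨x, l, hx, hl, hlen, rfl⟩
  exact ⟨x, l, hx, hl, hlen.trans h, rfl⟩

theorem ball_zero (X : Set S) : ball X 0 = ∅ := by
  ext s
  simp [ball]

theorem ball_add (X : Set S) (m n : ℕ) :
    ball X (m + n) ⊆ ball X m ∪ ball X n ∪ Set.image2 (fun a b => a * b) (ball X m) (ball X n) := by
  rintro s ⟨x, l, hx, hl, hlen, rfl⟩
  by_cases h1 : l.length + 1 ≤ m
  · left; left
    exact ⟨x, l, hx, hl, h1, rfl⟩
  · push Not at h1
    rcases Nat.eq_zero_or_pos m with hm | hm
    · subst hm
      left; right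
      exact ⟨x, l, hx, hl, by omega, rfl⟩
    · right
      -- split the word after `m` letters
      have hdrop : ∃ y l', l.drop (m - 1) = y :: l' := by
        have : (l.drop (m - 1)).length ≠ 0 := by
          rw [List.length_drop]; omega
        cases hd : l.drop (m - 1) with
        | nil => simp [hd] at this
        | cons y l' => exact ⟨y, l', rfl⟩
      obtain ⟨y, l', hd⟩ := hdrop
      have hsplit : l = l.take (m - 1) ++ (y :: l') := by
        rw [← hd, List.take_append_drop]
      have hlen' : l.length = (l.take (m - 1)).length + (l'.length + 1) := by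
        conv_lhs => rw [hsplit]
        simp
      have htake : (l.take (m - 1)).length = m - 1 := by
        rw [List.length_take]; omega
      refine ⟨(l.take (m - 1)).foldl (fun a b => a * b) x, ?_, l'.foldl (fun a b => a * b) y, ?_, ?_⟩
      · exact ⟨x, l.take (m - 1), hx, fun z hz => hl z (List.mem_of_mem_take hz), by omega, rfl⟩
      · refine ⟨y, l', ?_, ?_, by omega, rfl⟩
        · apply hl
          rw [hsplit]; simp
        · intro z hz
          apply hl
          rw [hsplit]; simp [hz]
      · conv_rhs => rw [hsplit]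
        rw [List.foldl_append, List.foldl_cons, foldl_mul]

theorem ball_one (X : Set S) : ball X 1 = X := by
  ext s
  constructor
  · rintro ⟨x, l, hx, hl, hlen, rfl⟩
    have : l = [] := by
      cases l with
      | nil => rfl
      | cons a l => simp at hlen
    subst this
    exact hx
  · intro hs
    exact ⟨s, [], hs, by simp, by simp, rfl⟩

theorem ball_finite {X : Set S} (hX : X.Finite) (n : ℕ) : (ball X n).Finite := by
  induction n with
  | zero => rw [ball_zero]; exact Set.finite_empty
  | succ n ih =>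
    refine Set.Finite.subset ?_ (ball_add X n 1)
    rw [ball_one]
    exact (ih.union hX).union (ih.image2 _ hX)

theorem growth_mono {X : Set S} (hX : X.Finite) : Monotone (growth X) := by
  intro m n h
  exact Set.ncard_le_ncard (ball_mono X h) (ball_finite hX n)

theorem growth_add {X : Set S} (hX : X.Finite) (m n : ℕ) :
    growth X (m + n) + 1 ≤ (growth X m + 1) * (growth X n + 1) := by
  have h1 : growth X (m + n) ≤
      (ball X m ∪ ball X n ∪ Set.image2 (fun a b => a * b) (ball X m) (ball X n)).ncard :=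
    Set.ncard_le_ncard (ball_add X m n)
      (((ball_finite hX m).union (ball_finite hX n)).union
        ((ball_finite hX m).image2 _ (ball_finite hX n)))
  have h2 : (Set.image2 (fun a b => a * b) (ball X m) (ball X n)).ncard ≤
      growth X m * growth X n := by
    rw [← Set.image_prod]
    refine (Set.ncard_image_le ((ball_finite hX m).prod (ball_finite hX n))).trans ?_
    rw [Set.ncard_prod]
    exact le_rfl
  have h3 := Set.ncard_union_le (ball X m ∪ ball X n)
    (Set.image2 (fun a b => a * b) (ball X m) (ball X n))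
  have h4 := Set.ncard_union_le (ball X m) (ball X n)
  have h5 : (ball X m).ncard = growth X m := rfl
  have h6 : (ball X n).ncard = growth X n := rfl
  nlinarith [h1, h2, h3, h4, h5, h6]

end growth

/-! ### The exponential / subexponential dichotomy -/

theorem pow_bound {f : ℕ → ℕ} (hf : ∀ m n, f (m + n) + 1 ≤ (f m + 1) * (f n + 1))
    {N : ℕ} {c : ℝ} (hc : 1 < c) (hN : (f N : ℝ) + 1 ≤ c ^ N) (q : ℕ) (r : ℕ) :
    (f (q * N + r) : ℝ) + 1 ≤ c ^ (q * N) * (f r + 1) := by
  induction q with
  | zero => simp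
  | succ q ih =>
    have h1 : (f (N + (q * N + r)) : ℝ) + 1 ≤ (f N + 1) * (f (q * N + r) + 1) := by
      exact_mod_cast hf N (q * N + r)
    have h2 : (q + 1) * N + r = N + (q * N + r) := by ring
    rw [h2]
    refine h1.trans ?_
    have h3 : c ^ ((q + 1) * N) * ((f r : ℝ) + 1) = c ^ N * (c ^ (q * N) * (f r + 1)) := by
      rw [show (q + 1) * N = N + q * N by ring, pow_add]; ring
    rw [h3]
    exact mul_le_mul hN ih (by positivity) (by positivity)

theorem upper_of_bound {f : ℕ → ℕ} (hmono : Monotone f)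
    (hf : ∀ m n, f (m + n) + 1 ≤ (f m + 1) * (f n + 1)) {N : ℕ} (hN1 : 1 ≤ N) {c₀ : ℝ}
    (hc₀ : 1 < c₀) (hN : (f N : ℝ) + 1 ≤ c₀ ^ N) (n : ℕ) : (f n : ℝ) ≤ c₀ ^ n * (f N + 1) := by
  have h1 := pow_bound hf hc₀ hN (n / N) (n % N)
  have h2 : n / N * N + n % N = n := Nat.div_add_mod' n N
  rw [h2] at h1
  have h3 : (f (n % N) : ℝ) ≤ f N := by
    exact_mod_cast hmono (Nat.mod_lt n hN1).le
  have h4 : c₀ ^ (n / N * N) ≤ c₀ ^ n :=
    pow_le_pow_right₀ hc₀.le (Nat.div_mul_le_self n N)
  have h5 : c₀ ^ (n / N * N) * ((f (n % N) : ℝ) + 1) ≤ c₀ ^ n * (f N + 1) :=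
    mul_le_mul h4 (by linarith) (by positivity) (by positivity)
  linarith

theorem dichotomy {f : ℕ → ℕ} (hmono : Monotone f)
    (hf : ∀ m n, f (m + n) + 1 ≤ (f m + 1) * (f n + 1)) :
    Subexponential f ∨ ∃ c : ℝ, 1 < c ∧ ∀ n, 1 ≤ n → c ^ n < (f n : ℝ) + 1 := by
  by_cases h : ∀ c : ℝ, 1 < c → ∃ N, 1 ≤ N ∧ (f N : ℝ) + 1 ≤ c ^ N
  · left
    intro c hc
    obtain ⟨c₀, hc₀, hc₀c⟩ := exists_between hc
    obtain ⟨N, hN1, hN⟩ := h c₀ hc₀
    have key := upper_of_bound hmono hf hN1 hc₀ hN
    have hlim : Tendsto (fun n : ℕ => (c / c₀) ^ n) atTop atTop :=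
      tendsto_pow_atTop_atTop_of_one_lt ((one_lt_div (by linarith)).2 hc₀c)
    filter_upwards [hlim.eventually_ge_atTop ((f N : ℝ) + 1)] with n hn
    have h6 : c ^ n = c₀ ^ n * (c / c₀) ^ n := by
      rw [← mul_pow]
      congr 1
      field_simp
    rw [h6]
    exact (key n).trans (mul_le_mul_of_nonneg_left hn (by positivity))
  · right
    push Not at h
    obtain ⟨c, hc, h⟩ := h
    exact ⟨c, hc, h⟩

end Pool.Agent.J6H52.Osc
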