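import Pool.Agent.J6H52.Osc.Diag

/-!
# There are only countably many growth functions of finitely presented semigroups
-/

universe u v

namespace Pool.Agent.J6H52.Osc

open Filter

instance instCountableFreeSemigroup (k : ℕ) : Countable (FreeSemigroup (Fin k)) := by
  have h : Function.Injective (fun w : FreeSemigroup (Fin k) => (w.head, w.tail)) := by
    intro a b h
    simp only [Prod.mk.injEq] at h
    exact FreeSemigroup.ext h.1 h.2
  exact h.countable

theorem ball_map {S : Type u} {T : Type v} [Semigroup S] [Semigroup T] (e : S ≃* T) (X : Set S)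
    (n : ℕ) : ball (e '' X) n = e '' ball X n := by
  have hfold : ∀ (l : List S) (x : S),
      e (l.foldl (fun a b => a * b) x) = (l.map e).foldl (fun a b => a * b) (e x) := by
    intro l
    induction l with
    | nil => intro x; rfl
    | cons y l ih => intro x; simp only [List.foldl_cons, List.map_cons]; rw [ih, map_mul]
  ext t
  constructor
  · rintro ⟨x, l, ⟨x', hx', rfl⟩, hl, hlen, rfl⟩
    have hl' : ∃ l' : List S, (∀ y ∈ l', y ∈ X) ∧ l = l'.map e := by
      clear hlen
      induction l with
      | nil => exact ⟨[], by simp, rfl⟩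
      | cons y l ih =>
        obtain ⟨l', h1, h2⟩ := ih (fun z hz => hl z (List.mem_cons_of_mem _ hz))
        obtain ⟨y', hy', hy''⟩ := hl y List.mem_cons_self
        refine ⟨y' :: l', ?_, by simp [h2, hy'']⟩
        intro z hz
        rcases List.mem_cons.1 hz with rfl | hz
        · exact hy'
        · exact h1 z hz
    obtain ⟨l', h1, rfl⟩ := hl'
    refine ⟨l'.foldl (fun a b => a * b) x', ⟨x', l', hx', h1, by simpa using hlen, rfl⟩, ?_⟩
    exact hfold l' x'
  · rintro ⟨s, ⟨x, l, hx, hl, hlen, rfl⟩, rfl⟩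
    refine ⟨e x, l.map e, ⟨x, hx, rfl⟩, ?_, by simpa using hlen, hfold l x⟩
    intro y hy
    obtain ⟨z, hz, rfl⟩ := List.mem_map.1 hy
    exact ⟨z, hl z hz, rfl⟩

theorem growth_map {S : Type u} {T : Type v} [Semigroup S] [Semigroup T] (e : S ≃* T) (X : Set S) :
    growth (e '' X) = growth X := by
  funext n
  unfold growth
  rw [ball_map]
  exact Set.ncard_image_of_injective _ e.injective

/-- The set of all growth functions of finitely presented semigroups, with respect to all finite
subsets. -/
def fpGrowth : Set (ℕ → ℕ) :=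
  {f | ∃ (k : ℕ) (R : Finset (FreeSemigroup (Fin k) × FreeSemigroup (Fin k)))
    (X : Finset (conGen (fun a b : FreeSemigroup (Fin k) => (a, b) ∈ R)).Quotient),
    f = growth (X : Set (conGen (fun a b : FreeSemigroup (Fin k) => (a, b) ∈ R)).Quotient)}

theorem fpGrowth_countable : fpGrowth.Countable := by
  have : fpGrowth = ⋃ k : ℕ, ⋃ R : Finset (FreeSemigroup (Fin k) × FreeSemigroup (Fin k)),
      Set.range (fun X : Finset (conGen (fun a b : FreeSemigroup (Fin k) => (a, b) ∈ R)).Quotient =>
        growth (X : Set (conGen (fun a b : FreeSemigroup (Fin k) => (a, b) ∈ R)).Quotient)) := by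
    ext f
    simp only [fpGrowth, Set.mem_setOf_eq, Set.mem_iUnion, Set.mem_range]
    constructor
    · rintro ⟨k, R, X, rfl⟩
      exact ⟨k, R, X, rfl⟩
    · rintro ⟨k, R, X, rfl⟩
      exact ⟨k, R, X, rfl⟩
  rw [this]
  refine Set.countable_iUnion fun k => Set.countable_iUnion fun R => ?_
  have : Countable (conGen (fun a b : FreeSemigroup (Fin k) => (a, b) ∈ R)).Quotient := by
    unfold Con.Quotient
    infer_instance
  exact Set.countable_range _

theorem growth_mem_fpGrowth {S : Type u} [Semigroup S] (hS : FinitelyPresented S) {X : Set S}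
    (hX : X.Finite) : growth X ∈ fpGrowth := by
  obtain ⟨k, R, ⟨e⟩⟩ := hS
  refine ⟨k, R, (hX.image e).toFinset, ?_⟩
  rw [Set.Finite.coe_toFinset, growth_map]

/-- The universal subexponential function which eventually dominates the growth functions of all
finitely presented semigroups of subexponential growth. -/
theorem exists_universal :
    ∃ F : ℕ → ℕ, StrictMono F ∧ Subexponential F ∧ (∀ᶠ n in atTop, n ^ 3 ≤ F n) ∧
      ∀ f ∈ fpGrowth, Monotone f → Subexponential f → ∀ᶠ n in atTop, f n ≤ F n := by
  have hcube : Subexponential (fun n => n ^ 3) := by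
    intro c hc
    have h := tendsto_pow_const_div_const_pow_of_one_lt 3 hc
    have h2 : ∀ᶠ n : ℕ in atTop, (n : ℝ) ^ 3 / c ^ n < 1 :=
      h.eventually (gt_mem_nhds (by norm_num))
    filter_upwards [h2] with n hn
    have hpos : 0 < c ^ n := by positivity
    rw [div_lt_iff₀ hpos, one_mul] at hn
    push_cast
    exact hn.le
  let G : Set (ℕ → ℕ) := insert (fun n => n ^ 3) {f ∈ fpGrowth | Monotone f ∧ Subexponential f}
  have hG : G.Countable := (fpGrowth_countable.mono (fun f hf => hf.1)).insert _
  obtain ⟨g, hg⟩ := hG.exists_eq_range ⟨_, Set.mem_insert _ _⟩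
  have hgm : ∀ i, Monotone (g i) ∧ Subexponential (g i) := by
    intro i
    have : g i ∈ G := by rw [hg]; exact ⟨i, rfl⟩
    rcases this with h | h
    · rw [h]
      exact ⟨fun a b hab => Nat.pow_le_pow_left hab 3, hcube⟩
    · exact h.2
  obtain ⟨F, hF1, hF2, hF3⟩ := exists_dominating g (fun i => (hgm i).1) (fun i => (hgm i).2)
  refine ⟨F, hF1, hF2, ?_, ?_⟩
  · have : (fun n : ℕ => n ^ 3) ∈ G := Set.mem_insert _ _
    rw [hg] at this
    obtain ⟨i, hi⟩ := this
    have := hF3 i
    rw [hi] at this
    exact this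
  · intro f hf hfm hfs
    have : f ∈ G := Set.mem_insert_of_mem _ ⟨hf, hfm, hfs⟩
    rw [hg] at this
    obtain ⟨i, hi⟩ := this
    have := hF3 i
    rw [hi] at this
    exact this

/-- The dichotomy for finitely presented semigroups. -/
theorem fp_dichotomy :
    ∃ F : ℕ → ℕ, StrictMono F ∧ Subexponential F ∧ (∀ᶠ n in atTop, n ^ 3 ≤ F n) ∧
      ∀ (S : Type u) [Semigroup S], FinitelyPresented S → ∀ X : Set S, X.Finite →
        (∀ f : ℕ → ℕ, Subexponential f → ∀ᶠ n in atTop, f n ≤ growth X n) ∨
        (∀ᶠ n in atTop, growth X n ≤ F n) := by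
  obtain ⟨F, hF1, hF2, hF3, hF4⟩ := exists_universal
  refine ⟨F, hF1, hF2, hF3, ?_⟩
  intro S _ hS X hX
  rcases dichotomy (growth_mono hX) (growth_add hX) with h | ⟨c, hc, h⟩
  · right
    exact hF4 _ (growth_mem_fpGrowth hS hX) (growth_mono hX) h
  · left
    intro f hf
    obtain ⟨c', hc', hc'c⟩ := exists_between hc
    have hratio : 1 < c / c' := (one_lt_div (by linarith)).2 hc'c
    filter_upwards [hf c' hc', eventually_ge_atTop 1, eventually_linear_le_pow hratio] with n h1 h2 h3
    have h4 := h n h2
    have h5 : c ^ n = c' ^ n * (c / c') ^ n := by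
      rw [← mul_pow]
      congr 1
      have : c' ≠ 0 := by linarith
      field_simp
    rw [h5] at h4
    have h6 : (1 : ℝ) ≤ c' ^ n := one_le_pow₀ hc'.le
    have h7 : (1 : ℝ) ≤ n := by exact_mod_cast h2
    have h8 : c' ^ n * (2 * (n : ℝ) + 1) ≤ c' ^ n * (c / c') ^ n :=
      mul_le_mul_of_nonneg_left h3 (by positivity)
    have h9 : c' ^ n * 3 ≤ c' ^ n * (2 * (n : ℝ) + 1) :=
      mul_le_mul_of_nonneg_left (by linarith) (by positivity)
    have h10 : (f n : ℝ) ≤ growth X n := by nlinarith
    exact_mod_cast h10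

end Pool.Agent.J6H52.Osc
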