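import Mathlib

/-!
# Growth functions of finitely generated semigroups: the definitions

* `ball X n`: products of at least one and at most `n` elements of `X`;
* `growth X n`: their number, i.e. the growth function of the semigroup with respect to `X`;
* `FinitelyPresented S`: `S` has a finite semigroup presentation;
* `Preceq`, `GrowthEquiv`: the usual comparison and equivalence of growth functions;
* `Subexponential`: growing slower than every exponential function `c ^ n`, `c > 1`.
-/

universe u

namespace Pool.Agent.J6H52.Osc

open Filter


/-- The elements of the semigroup `S` which can be written as a product `x₁ x₂ ⋯ x_m` of elements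
of `X` with `1 ≤ m ≤ n`. -/
def ball {S : Type u} [Semigroup S] (X : Set S) (n : ℕ) : Set S :=
  {s | ∃ (x : S) (l : List S), x ∈ X ∧ (∀ y ∈ l, y ∈ X) ∧ l.length + 1 ≤ n ∧
    s = l.foldl (fun a b => a * b) x}

/-- The growth function of the semigroup `S` with respect to the set `X`: the number of elements
of `S` which are products of at least one and at most `n` elements of `X`. -/
noncomputable def growth {S : Type u} [Semigroup S] (X : Set S) (n : ℕ) : ℕ := (ball X n).ncard

/-- `S` is finitely presented as a semigroup: it is isomorphic to the quotient of the free
semigroup on finitely many letters by the congruence generated by finitely many pairs of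
(nonempty) words. -/
def FinitelyPresented (S : Type u) [Semigroup S] : Prop :=
  ∃ (k : ℕ) (R : Finset (FreeSemigroup (Fin k) × FreeSemigroup (Fin k))),
    Nonempty (S ≃* (conGen (fun a b : FreeSemigroup (Fin k) => (a, b) ∈ R)).Quotient)

/-- The comparison `f ⪯ g` of growth functions: there is a constant `C ≥ 1` with
`f n ≤ C * g (C * n)` for all `n ≥ 1`. (The value at `n = 0` carries no information, as every
growth function is `0` there, so the condition is imposed for the positive integers `n`.) -/
def Preceq (f g : ℕ → ℕ) : Prop := ∃ C : ℕ, 1 ≤ C ∧ ∀ n, 1 ≤ n → f n ≤ C * g (C * n)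

/-- The equivalence `f ∼ g`: `f ⪯ g` and `g ⪯ f`. -/
def GrowthEquiv (f g : ℕ → ℕ) : Prop := Preceq f g ∧ Preceq g f

/-- `f` is subexponential: for every real `c > 1`, `f n ≤ c ^ n` for all large `n`. -/
def Subexponential (f : ℕ → ℕ) : Prop :=
  ∀ c : ℝ, 1 < c → ∀ᶠ n in atTop, (f n : ℝ) ≤ c ^ n

end Pool.Agent.J6H52.Osc
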