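import Pool.Agent.J6H52.Osc.Basic

/-!
# A subexponential function dominating countably many subexponential functions
-/

namespace Pool.Agent.J6H52.Osc

open Filter

theorem eventually_linear_le_pow {r : ℝ} (hr : 1 < r) :
    ∀ᶠ n : ℕ in atTop, (2 * (n : ℝ) + 1) ≤ r ^ n := by
  have h := tendsto_pow_const_div_const_pow_of_one_lt 1 hr
  have h2 : ∀ᶠ n : ℕ in atTop, (n : ℝ) ^ 1 / r ^ n < 1 / 3 :=
    h.eventually (gt_mem_nhds (by norm_num))
  filter_upwards [h2, eventually_ge_atTop 1] with n hn hn1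
  have hpos : 0 < r ^ n := by positivity
  rw [div_lt_iff₀ hpos, pow_one] at hn
  have : (1 : ℝ) ≤ n := by exact_mod_cast hn1
  linarith

theorem exists_dominating (g : ℕ → ℕ → ℕ) (hmono : ∀ i, Monotone (g i))
    (hsub : ∀ i, Subexponential (g i)) :
    ∃ F : ℕ → ℕ, StrictMono F ∧ Subexponential F ∧ ∀ i, ∀ᶠ n in atTop, g i n ≤ F n := by
  have hN : ∀ i : ℕ, ∃ N : ℕ, ∀ n, N ≤ n → (g i n : ℝ) ≤ (1 + 1 / ((i : ℝ) + 1)) ^ n := by
    intro i
    have h1 : (1 : ℝ) < 1 + 1 / ((i : ℝ) + 1) := by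
      have : (0 : ℝ) < 1 / ((i : ℝ) + 1) := by positivity
      linarith
    exact eventually_atTop.1 (hsub i _ h1)
  choose N hN using hN
  let A : ℕ → Finset ℕ := fun n => (Finset.range (n + 1)).filter (fun i => N i ≤ n)
  have hA : ∀ n, A n ⊆ A (n + 1) := by
    intro n i hi
    simp only [A, Finset.mem_filter, Finset.mem_range] at hi ⊢
    omega
  refine ⟨fun n => n + ∑ i ∈ A n, g i n, ?_, ?_, ?_⟩
  · apply strictMono_nat_of_lt_succ
    intro n
    have h1 : ∑ i ∈ A n, g i n ≤ ∑ i ∈ A n, g i (n + 1) :=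
      Finset.sum_le_sum fun i _ => hmono i (Nat.le_succ n)
    have h2 : ∑ i ∈ A n, g i (n + 1) ≤ ∑ i ∈ A (n + 1), g i (n + 1) :=
      Finset.sum_le_sum_of_subset (hA n)
    show n + ∑ i ∈ A n, g i n < n + 1 + ∑ i ∈ A (n + 1), g i (n + 1)
    omega
  · intro c hc
    obtain ⟨c', hc', hc'c⟩ := exists_between hc
    obtain ⟨i₀, hi₀⟩ := exists_nat_gt (1 / (c' - 1))
    have hc'1 : 0 < c' - 1 := by linarith
    have hi₀' : ∀ i : ℕ, i₀ ≤ i → (1 + 1 / ((i : ℝ) + 1)) ≤ c' := by
      intro i hi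
      have h1 : (i₀ : ℝ) ≤ i := by exact_mod_cast hi
      have h2 : 1 / (c' - 1) < (i : ℝ) + 1 := by linarith
      have h3 : 1 / ((i : ℝ) + 1) < c' - 1 := by
        rw [div_lt_iff₀ (by positivity)]
        rw [div_lt_iff₀ hc'1] at h2
        linarith
      linarith
    have hev : ∀ᶠ n : ℕ in atTop, ∀ i ∈ Finset.range i₀, (g i n : ℝ) ≤ c' ^ n := by
      rw [Filter.eventually_all_finset]
      intro i _
      exact hsub i c' hc'
    have hratio : 1 < c / c' := (one_lt_div (by linarith)).2 hc'c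
    filter_upwards [hev, eventually_linear_le_pow hratio] with n hn hn2
    have hterm : ∀ i ∈ A n, (g i n : ℝ) ≤ c' ^ n := by
      intro i hi
      simp only [A, Finset.mem_filter, Finset.mem_range] at hi
      by_cases hlt : i < i₀
      · exact hn i (Finset.mem_range.2 hlt)
      · push Not at hlt
        refine (hN i n hi.2).trans ?_
        exact pow_le_pow_left₀ (by positivity) (hi₀' i hlt) n
    have hcard : ((A n).card : ℝ) ≤ n + 1 := by
      have : (A n).card ≤ n + 1 := by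
        refine (Finset.card_filter_le _ _).trans ?_
        simp
      exact_mod_cast this
    have hsum : (∑ i ∈ A n, (g i n : ℝ)) ≤ (A n).card • c' ^ n := Finset.sum_le_card_nsmul _ _ _ hterm
    rw [nsmul_eq_mul] at hsum
    have hpow : (1 : ℝ) ≤ c' ^ n := one_le_pow₀ hc'.le
    push_cast
    have h6 : c ^ n = c' ^ n * (c / c') ^ n := by
      rw [← mul_pow]
      congr 1
      have : c' ≠ 0 := by linarith
      field_simp
    rw [h6]
    have h7 : (A n).card * c' ^ n ≤ ((n : ℝ) + 1) * c' ^ n :=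
      mul_le_mul_of_nonneg_right hcard (by positivity)
    have h8 : (n : ℝ) ≤ n * c' ^ n := le_mul_of_one_le_right (by positivity) hpow
    have h9 : c' ^ n * (2 * (n : ℝ) + 1) ≤ c' ^ n * (c / c') ^ n :=
      mul_le_mul_of_nonneg_left hn2 (by positivity)
    nlinarith
  · intro i
    filter_upwards [eventually_ge_atTop i, eventually_ge_atTop (N i)] with n h1 h2
    have hi : i ∈ A n := by
      simp only [A, Finset.mem_filter, Finset.mem_range]
      omega
    have := Finset.single_le_sum (f := fun i => g i n) (fun i _ => Nat.zero_le _) hi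
    show g i n ≤ n + ∑ i ∈ A n, g i n
    have h3 : g i n ≤ ∑ i ∈ A n, g i n := this
    omega

/-- A strictly increasing subexponential function `F` satisfies `F ⪯ 2 ^ n`. -/
theorem preceq_two_pow {F : ℕ → ℕ} (hm : Monotone F) (hs : Subexponential F) :
    Preceq F (fun n => 2 ^ n) := by
  obtain ⟨N, hN⟩ := eventually_atTop.1 (hs 2 (by norm_num))
  refine ⟨F N + 1, by omega, fun n _ => ?_⟩
  rcases le_total N n with h | h
  · have h1 : F n ≤ 2 ^ n := by exact_mod_cast hN n h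
    have h2 : 2 ^ n ≤ 2 ^ ((F N + 1) * n) := by
      apply Nat.pow_le_pow_right (by norm_num)
      nlinarith
    calc F n ≤ 2 ^ n := h1
      _ ≤ 2 ^ ((F N + 1) * n) := h2
      _ ≤ (F N + 1) * 2 ^ ((F N + 1) * n) := Nat.le_mul_of_pos_left _ (by omega)
  · have h1 : F n ≤ F N := hm h
    have h2 : 1 ≤ 2 ^ ((F N + 1) * n) := Nat.one_le_two_pow
    simp only
    nlinarith

/-- `2 ^ n ⪯ F` fails for a subexponential function `F`. -/
theorem not_two_pow_preceq {F : ℕ → ℕ} (hs : Subexponential F) :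
    ¬ Preceq (fun n => 2 ^ n) F := by
  rintro ⟨C, hC, h⟩
  have hC0 : (0 : ℝ) < C := by exact_mod_cast hC
  set c : ℝ := (3 / 2 : ℝ) ^ ((1 : ℝ) / C) with hc
  have hc1 : 1 < c := Real.one_lt_rpow (by norm_num) (by positivity)
  have hcC : c ^ C = 3 / 2 := by
    rw [hc, ← Real.rpow_natCast, ← Real.rpow_mul (by norm_num)]
    have : (1 : ℝ) / C * C = 1 := by field_simp
    rw [this, Real.rpow_one]
  obtain ⟨N, hN⟩ := eventually_atTop.1 (hs c hc1)
  have hlim : Tendsto (fun n : ℕ => (4 / 3 : ℝ) ^ n) atTop atTop :=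
    tendsto_pow_atTop_atTop_of_one_lt (by norm_num)
  obtain ⟨n, hn1, hn2, hn3⟩ := ((hlim.eventually_gt_atTop (C : ℝ)).and
    ((eventually_ge_atTop N).and (eventually_ge_atTop 1))).exists
  have h1 : (2 : ℝ) ^ n ≤ C * F (C * n) := by exact_mod_cast h n hn3
  have h2 : (F (C * n) : ℝ) ≤ c ^ (C * n) := hN _ (by nlinarith)
  rw [pow_mul, hcC] at h2
  have h3 : (2 : ℝ) ^ n = (4 / 3) ^ n * (3 / 2) ^ n := by
    rw [← mul_pow]; norm_num
  rw [h3] at h1
  have h4 : (0 : ℝ) < (3 / 2) ^ n := by positivity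
  have h5 : (C : ℝ) * F (C * n) ≤ C * (3 / 2) ^ n := mul_le_mul_of_nonneg_left h2 hC0.le
  nlinarith

end Pool.Agent.J6H52.Osc
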