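import Pool.Agent.J6H52.Osc.Countable

/-!
# Finitely presented semigroups of small exponential growth
-/

universe u

namespace Pool.Agent.J6H52.Osc

open Filter

section WithOne

variable {S : Type u} [Semigroup S]

/-- The inclusion of `S` in the monoid with an identity adjoined. -/
def toW (s : S) : WithOne S := (s : WithOne S)

theorem coe_foldl (l : List S) (x : S) :
    ((l.foldl (fun a b => a * b) x : S) : WithOne S) = (x : WithOne S) * (l.map toW).prod := by
  induction l generalizing x with
  | nil => simp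
  | cons y l ih =>
    simp only [List.foldl_cons, List.map_cons, List.prod_cons]
    rw [ih, WithOne.coe_mul, mul_assoc]
    rfl

theorem mem_ball_iff {X : Set S} {n : ℕ} {s : S} :
    s ∈ ball X n ↔ ∃ l : List S, l ≠ [] ∧ (∀ y ∈ l, y ∈ X) ∧ l.length ≤ n ∧
      (s : WithOne S) = (l.map toW).prod := by
  constructor
  · rintro ⟨x, l, hx, hl, hlen, rfl⟩
    refine ⟨x :: l, by simp, ?_, by simpa using hlen, ?_⟩
    · intro y hy
      rcases List.mem_cons.1 hy with rfl | hy
      · exact hx
      · exact hl y hy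
    · rw [coe_foldl]; simp [toW]
  · rintro ⟨l, hne, hl, hlen, h⟩
    cases l with
    | nil => exact absurd rfl hne
    | cons x l =>
      refine ⟨x, l, hl x List.mem_cons_self, fun y hy => hl y (List.mem_cons_of_mem _ hy),
        by simpa using hlen, ?_⟩
      have h2 := coe_foldl l x
      have h3 : ((x :: l).map toW).prod = (x : WithOne S) * (l.map toW).prod := by
        rw [List.map_cons, List.prod_cons]; rfl
      rw [h3, ← h2] at h
      exact WithOne.coe_inj.1 h

end WithOne

/-- The word `2 1 ^ j 2` over the alphabet `{0, 1, 2}`. -/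
def bab (j : ℕ) : FreeSemigroup (Fin 3) := ⟨2, List.replicate j 1 ++ [2]⟩

open Classical in
/-- The relations: `0` is a zero element, and `2 1 ^ j 2 = 0` for `j < k`. -/
noncomputable def rels (k : ℕ) : Finset (FreeSemigroup (Fin 3) × FreeSemigroup (Fin 3)) :=
  {(⟨0, [0]⟩, ⟨0, []⟩), (⟨0, [1]⟩, ⟨0, []⟩), (⟨1, [0]⟩, ⟨0, []⟩), (⟨0, [2]⟩, ⟨0, []⟩),
    (⟨2, [0]⟩, ⟨0, []⟩)} ∪ (Finset.range k).image (fun j => (bab j, ⟨0, []⟩))

/-- The semigroup `⟨0, a, b | 0 is a zero, b a ^ j b = 0 (j < k)⟩`. -/
abbrev Q (k : ℕ) : Type := (conGen (fun a b : FreeSemigroup (Fin 3) => (a, b) ∈ rels k)).Quotient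

/-- The class of a word. -/
def cls (k : ℕ) (w : FreeSemigroup (Fin 3)) : Q k := (w : (conGen (fun a b : FreeSemigroup (Fin 3) => (a, b) ∈ rels k)).Quotient)

theorem cls_mul (k : ℕ) (v w : FreeSemigroup (Fin 3)) : cls k (v * w) = cls k v * cls k w := rfl

/-- The generators. -/
def gen (k : ℕ) (i : Fin 3) : Q k := cls k (FreeSemigroup.of i)

/-- The generators in the monoid obtained by adding an identity. -/
def gen1 (k : ℕ) (i : Fin 3) : WithOne (Q k) := (gen k i : WithOne (Q k))

theorem fp_Q (k : ℕ) : FinitelyPresented (Q k) := ⟨3, rels k, ⟨MulEquiv.refl _⟩⟩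

theorem coe_cls (k : ℕ) (h : Fin 3) (t : List (Fin 3)) :
    ((cls k ⟨h, t⟩ : Q k) : WithOne (Q k)) = ((h :: t).map (gen1 k)).prod := by
  induction t generalizing h with
  | nil => simp [gen1, gen, FreeSemigroup.of]
  | cons x t ih =>
    have h1 : (⟨h, x :: t⟩ : FreeSemigroup (Fin 3)) = FreeSemigroup.of h * ⟨x, t⟩ := rfl
    rw [h1, cls_mul, WithOne.coe_mul, ih]
    have h2 : ((h :: x :: t).map (gen1 k)).prod = gen1 k h * ((x :: t).map (gen1 k)).prod := by
      rw [List.map_cons, List.prod_cons]
    rw [h2]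
    rfl

theorem cls_eq {k : ℕ} {v w : FreeSemigroup (Fin 3)} (h : (v, w) ∈ rels k) :
    cls k v = cls k w :=
  (Con.eq _).2 (ConGen.Rel.of _ _ h)

theorem zero_mul_gen (k : ℕ) (i : Fin 3) : gen1 k 0 * gen1 k i = gen1 k 0 := by
  have h : cls k ⟨0, [i]⟩ = cls k ⟨0, []⟩ := by
    apply cls_eq
    unfold rels
    fin_cases i <;> simp
  have h2 := coe_cls k 0 [i]
  rw [h, coe_cls] at h2
  simpa using h2.symm

theorem gen_mul_zero (k : ℕ) (i : Fin 3) : gen1 k i * gen1 k 0 = gen1 k 0 := by
  have h : cls k ⟨i, [0]⟩ = cls k ⟨0, []⟩ := by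
    apply cls_eq
    unfold rels
    fin_cases i <;> simp
  have h2 := coe_cls k i [0]
  rw [h, coe_cls] at h2
  simpa using h2.symm

theorem bab_eq {k j : ℕ} (hj : j < k) :
    gen1 k 2 * gen1 k 1 ^ j * gen1 k 2 = gen1 k 0 := by
  have h : cls k (bab j) = cls k ⟨0, []⟩ := by
    apply cls_eq
    unfold rels
    simp only [Finset.mem_union, Finset.mem_image, Finset.mem_range]
    right
    exact ⟨j, hj, rfl⟩
  have h2 := coe_cls k 2 (List.replicate j 1 ++ [2])
  have h3 : cls k ⟨2, List.replicate j 1 ++ [2]⟩ = cls k ⟨0, []⟩ := h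
  rw [h3, coe_cls] at h2
  simp only [List.map_cons, List.map_nil, List.prod_cons, List.prod_nil, mul_one, List.map_append,
    List.map_replicate, List.prod_append, List.prod_replicate] at h2
  rw [mul_assoc]
  exact h2.symm

/-- The generating set. -/
def genSet (k : ℕ) : Set (Q k) := Set.range (gen k)

theorem genSet_finite (k : ℕ) : (genSet k).Finite := Set.finite_range _

theorem genSet_closure (k : ℕ) : Subsemigroup.closure (genSet k) = ⊤ := by
  rw [eq_top_iff]
  intro q _
  induction q using Con.induction_on with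
  | _ w =>
    obtain ⟨h, t⟩ := w
    induction t generalizing h with
    | nil => exact Subsemigroup.subset_closure ⟨h, rfl⟩
    | cons x t ih =>
      have h1 : (⟨h, x :: t⟩ : FreeSemigroup (Fin 3)) = FreeSemigroup.of h * ⟨x, t⟩ := rfl
      rw [h1]
      have h3 : gen k h ∈ Subsemigroup.closure (genSet k) := Subsemigroup.subset_closure ⟨h, rfl⟩
      exact (Subsemigroup.closure (genSet k)).mul_mem h3 (ih x trivial)

/-! ### Upper bound -/

/-- The possible values of short products. -/
def shortSet (k : ℕ) : Finset (ℕ ⊕ (ℕ × ℕ) ⊕ Unit) :=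
  (Finset.range (k + 2)).disjSum (((Finset.range (k + 1)) ×ˢ (Finset.range (k + 1))).disjSum
    Finset.univ)

/-- The value of a code. -/
def code (k : ℕ) : ℕ ⊕ (ℕ × ℕ) ⊕ Unit → WithOne (Q k)
  | Sum.inl i => gen1 k 1 ^ i
  | Sum.inr (Sum.inl (i, j)) => gen1 k 1 ^ i * gen1 k 2 * gen1 k 1 ^ j
  | Sum.inr (Sum.inr ()) => gen1 k 0

theorem zero_mul_prod (k : ℕ) (l : List (Fin 3)) :
    gen1 k 0 * (l.map (gen1 k)).prod = gen1 k 0 := by
  induction l with
  | nil => simp
  | cons x l ih => rw [List.map_cons, List.prod_cons, ← mul_assoc, zero_mul_gen, ih]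

theorem prod_mul_zero (k : ℕ) (l : List (Fin 3)) :
    (l.map (gen1 k)).prod * gen1 k 0 = gen1 k 0 := by
  induction l with
  | nil => simp
  | cons x l ih => rw [List.map_cons, List.prod_cons, mul_assoc, ih, gen_mul_zero]

theorem short_products (k : ℕ) (l : List (Fin 3)) (hl : l.length ≤ k + 1) :
    ((l.map (gen1 k)).prod = gen1 k 1 ^ l.length) ∨
    (∃ i j, i + j + 1 = l.length ∧ (l.map (gen1 k)).prod = gen1 k 1 ^ i * gen1 k 2 * gen1 k 1 ^ j) ∨
    (l.map (gen1 k)).prod = gen1 k 0 := by
  induction l with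
  | nil => left; simp
  | cons x l ih =>
    have hl' : l.length ≤ k := by simpa using hl
    have hx : ((x :: l).map (gen1 k)).prod = gen1 k x * (l.map (gen1 k)).prod := by simp
    have hgz : gen1 k x * gen1 k 0 = gen1 k 0 := gen_mul_zero k x
    rcases ih (by omega) with h | ⟨i, j, hij, h⟩ | h
    · rw [hx, h]
      have hxc : x = 0 ∨ x = 1 ∨ x = 2 := by fin_cases x <;> simp
      rcases hxc with rfl | rfl | rfl
      · right; right
        have := zero_mul_prod k (List.replicate l.length 1)
        simpa using this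
      · left
        simp only [List.length_cons]
        rw [← pow_succ']
      · right; left
        exact ⟨0, l.length, by simp, by simp⟩
    · rw [hx, h]
      have hxc : x = 0 ∨ x = 1 ∨ x = 2 := by fin_cases x <;> simp
      rcases hxc with rfl | rfl | rfl
      · right; right
        rw [← h]
        exact zero_mul_prod k l
      · right; left
        refine ⟨i + 1, j, by simp; omega, ?_⟩
        rw [pow_succ']
        simp only [mul_assoc]
      · right; right
        have hb : gen1 k 2 * gen1 k 1 ^ i * gen1 k 2 = gen1 k 0 := bab_eq (by omega)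
        have hz := zero_mul_prod k (List.replicate j 1)
        simp only [List.map_replicate, List.prod_replicate] at hz
        calc gen1 k 2 * (gen1 k 1 ^ i * gen1 k 2 * gen1 k 1 ^ j)
            = (gen1 k 2 * gen1 k 1 ^ i * gen1 k 2) * gen1 k 1 ^ j := by simp only [mul_assoc]
          _ = gen1 k 0 := by rw [hb, hz]
    · right; right
      rw [hx, h, hgz]

theorem growth_upper (k : ℕ) : growth (genSet k) (k + 1) ≤ (k + 2) + ((k + 1) * (k + 1) + 1) := by
  have hinj : Function.Injective (fun q : Q k => (q : WithOne (Q k))) := by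
    intro a b h
    exact WithOne.coe_inj.1 h
  have h1 : growth (genSet k) (k + 1) =
      ((fun q : Q k => (q : WithOne (Q k))) '' ball (genSet k) (k + 1)).ncard :=
    (Set.ncard_image_of_injective _ hinj).symm
  have h2 : ((fun q : Q k => (q : WithOne (Q k))) '' ball (genSet k) (k + 1)) ⊆
      (code k '' (shortSet k : Set (ℕ ⊕ (ℕ × ℕ) ⊕ Unit))) := by
    rintro m ⟨q, hq, rfl⟩
    obtain ⟨l, hne, hl, hlen, h⟩ := mem_ball_iff.1 hq
    have hl' : ∃ l' : List (Fin 3), l = l'.map (gen k) := by
      clear hne hlen h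
      induction l with
      | nil => exact ⟨[], rfl⟩
      | cons y l ih =>
        obtain ⟨l', h2⟩ := ih (fun z hz => hl z (List.mem_cons_of_mem _ hz))
        obtain ⟨i, hi⟩ := hl y List.mem_cons_self
        exact ⟨i :: l', by simp [h2, hi]⟩
    obtain ⟨l', rfl⟩ := hl'
    have h3 : ((l'.map (gen k)).map toW).prod = (l'.map (gen1 k)).prod := by
      rw [List.map_map]; rfl
    rw [h3] at h
    have hlen' : l'.length ≤ k + 1 := by simpa using hlen
    show (q : WithOne (Q k)) ∈ _
    rw [h]
    rcases short_products k l' hlen' with h4 | ⟨i, j, hij, h4⟩ | h4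
    · refine ⟨Sum.inl l'.length, ?_, h4.symm⟩
      simp [shortSet]; omega
    · refine ⟨Sum.inr (Sum.inl (i, j)), ?_, h4.symm⟩
      simp [shortSet]; omega
    · refine ⟨Sum.inr (Sum.inr ()), ?_, h4.symm⟩
      simp [shortSet]
  rw [h1]
  refine (Set.ncard_le_ncard h2 ((Finset.finite_toSet _).image _)).trans ?_
  refine (Set.ncard_image_le (Finset.finite_toSet _)).trans ?_
  rw [Set.ncard_coe_finset]
  simp [shortSet]

end Pool.Agent.J6H52.Osc
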