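import Pool.Agent.J6H52.Osc.Example

/-!
# Lower bound for the growth of the example semigroups
-/

namespace Pool.Agent.J6H52.Osc

open Filter

/-- The state space of the action: a counter and a record. -/
abbrev State : Type := ℕ × List ℕ

/-- Action of the letters. -/
def act (k : ℕ) (i : Fin 3) : Function.End (Option State) :=
  if i = 0 then fun _ => none
  else if i = 1 then fun o => o.map (fun p => (p.1 + 1, p.2))
  else fun o => o.bind (fun p => if k ≤ p.1 then some (0, p.1 :: p.2) else none)

theorem act_zero (k : ℕ) (o : Option State) : act k 0 o = none := rfl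
theorem act_one_some (k : ℕ) (p : State) : act k 1 (some p) = some (p.1 + 1, p.2) := rfl
theorem act_one_none (k : ℕ) : act k 1 none = none := rfl
theorem act_two_none (k : ℕ) : act k 2 none = none := rfl
theorem act_two_some (k : ℕ) (p : State) :
    act k 2 (some p) = if k ≤ p.1 then some (0, p.1 :: p.2) else none := rfl

theorem act_none (k : ℕ) (i : Fin 3) : act k i none = none := by
  fin_cases i <;> rfl

theorem mul_apply (f g : Function.End (Option State)) (o : Option State) :
    (f * g) o = f (g o) := rfl

theorem one_apply (o : Option State) : (1 : Function.End (Option State)) o = o := rfl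

theorem prod_none (k : ℕ) (l : List (Fin 3)) : (l.map (act k)).prod none = none := by
  induction l with
  | nil => rfl
  | cons x l ih => rw [List.map_cons, List.prod_cons, mul_apply, ih, act_none]

theorem act_one_pow (k j : ℕ) (p : State) : (act k 1 ^ j) (some p) = some (p.1 + j, p.2) := by
  induction j with
  | zero => rfl
  | succ j ih =>
    rw [pow_succ', mul_apply, ih, act_one_some]
    rfl

/-- The action of the free semigroup. -/
def phi (k : ℕ) : FreeSemigroup (Fin 3) →ₙ* Function.End (Option State) :=
  FreeSemigroup.lift (act k)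

theorem phi_mk (k : ℕ) (h : Fin 3) (t : List (Fin 3)) :
    phi k ⟨h, t⟩ = ((h :: t).map (act k)).prod := by
  induction t generalizing h with
  | nil => simp [phi, FreeSemigroup.lift]
  | cons x t ih =>
    have h1 : (⟨h, x :: t⟩ : FreeSemigroup (Fin 3)) = FreeSemigroup.of h * ⟨x, t⟩ := rfl
    rw [h1, map_mul, ih]
    have h2 : ((h :: x :: t).map (act k)).prod = act k h * ((x :: t).map (act k)).prod := by
      rw [List.map_cons, List.prod_cons]
    rw [h2]
    rfl

theorem phi_rel (k : ℕ) : conGen (fun a b : FreeSemigroup (Fin 3) => (a, b) ∈ rels k) ≤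
    Con.ker (phi k) := by
  rw [Con.conGen_le]
  intro x y h
  show phi k x = phi k y
  have h0 : ∀ (l : List (Fin 3)) (i : Fin 3), i = 0 → phi k ⟨i, l⟩ = phi k ⟨0, []⟩ := by
    rintro l i rfl
    rw [phi_mk, phi_mk]
    funext o
    simp only [List.map_cons, List.prod_cons, List.map_nil, List.prod_nil, mul_one]
    rw [mul_apply, act_zero, act_zero]
  have h1 : ∀ (i : Fin 3), phi k ⟨i, [0]⟩ = phi k ⟨0, []⟩ := by
    intro i
    rw [phi_mk, phi_mk]
    funext o
    simp only [List.map_cons, List.prod_cons, List.map_nil, List.prod_nil, mul_one]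
    rw [mul_apply, act_zero, act_none]
  have h2 : ∀ j, j < k → phi k (bab j) = phi k ⟨0, []⟩ := by
    intro j hj
    unfold bab
    rw [phi_mk, phi_mk]
    funext o
    simp only [List.map_cons, List.prod_cons, List.map_nil, List.prod_nil, mul_one,
      List.map_append, List.map_replicate, List.prod_append, List.prod_replicate]
    rw [mul_apply, mul_apply, act_zero]
    cases o with
    | none =>
      rw [act_two_none]
      have := prod_none k (2 :: List.replicate j 1)
      simpa [mul_apply] using this
    | some p =>
      rw [act_two_some]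
      split_ifs with hk
      · rw [act_one_pow, act_two_some]
        simp only [zero_add]
        rw [if_neg (by omega)]
      · have := prod_none k (2 :: List.replicate j 1)
        simpa [mul_apply] using this
  unfold rels at h
  simp only [Finset.mem_union, Finset.mem_insert, Finset.mem_singleton, Finset.mem_image,
    Finset.mem_range, Prod.mk.injEq] at h
  rcases h with (⟨rfl, rfl⟩ | ⟨rfl, rfl⟩ | ⟨rfl, rfl⟩ | ⟨rfl, rfl⟩ | ⟨rfl, rfl⟩) | ⟨j, hj, rfl, rfl⟩
  · exact h1 0
  · exact h0 _ _ rfl
  · exact h1 1
  · exact h0 _ _ rfl
  · exact h1 2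
  · exact h2 j hj

/-- The action of the quotient. -/
def psi (k : ℕ) : Q k →ₙ* Function.End (Option State) where
  toFun q := Con.liftOn q (phi k) (fun _ _ h => phi_rel k h)
  map_mul' x y := by
    induction x using Con.induction_on
    induction y using Con.induction_on
    exact map_mul (phi k) _ _

/-- The action of the quotient with an identity adjoined. -/
def Psi (k : ℕ) : WithOne (Q k) →* Function.End (Option State) := WithOne.lift (psi k)

theorem Psi_gen (k : ℕ) (i : Fin 3) : Psi k (gen1 k i) = act k i := by
  show psi k (gen k i) = act k i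
  show phi k (FreeSemigroup.of i) = act k i
  unfold phi
  rw [FreeSemigroup.lift_of]

theorem Psi_prod (k : ℕ) (l : List (Fin 3)) :
    Psi k (l.map (gen1 k)).prod = (l.map (act k)).prod := by
  induction l with
  | nil => simp
  | cons x l ih => simp only [List.map_cons, List.prod_cons, map_mul, ih, Psi_gen]

/-- The number of letters `a` following the letter `b`. -/
def expo (k : ℕ) (b : Bool) : ℕ := if b then k + 1 else k

/-- The word in the free generators `b a ^ k`, `b a ^ (k+1)` coded by a list of bits. -/
def word (k : ℕ) : List Bool → List (Fin 3)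
  | [] => []
  | b :: e => 2 :: (List.replicate (expo k b) 1 ++ word k e)

theorem word_length (k : ℕ) (e : List Bool) : (word k e).length ≤ (k + 2) * e.length := by
  induction e with
  | nil => simp [word]
  | cons b e ih =>
    have : expo k b ≤ k + 1 := by unfold expo; split_ifs <;> omega
    simp only [word, List.length_cons, List.length_append, List.length_replicate]
    rw [Nat.mul_add]
    omega

theorem word_act (k : ℕ) (e : List Bool) :
    ((word k e).map (act k)).prod (some (0, [])) = some (0, e.map (expo k)) := by
  induction e with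
  | nil => rfl
  | cons b e ih =>
    have : k ≤ expo k b := by unfold expo; split_ifs <;> omega
    simp only [word, List.map_cons, List.prod_cons, List.map_append, List.map_replicate,
      List.prod_append, List.prod_replicate]
    rw [mul_apply, mul_apply, ih, act_one_pow, act_two_some]
    simp only [zero_add]
    rw [if_pos this]

theorem expo_injective (k : ℕ) : Function.Injective (expo k) := by
  intro a b h
  unfold expo at h
  cases a <;> cases b <;> simp at h ⊢

theorem word_injective (k : ℕ) :
    Function.Injective (fun e : List Bool => ((word k e).map (gen1 k)).prod) := by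
  intro e f h
  have h1 := congrArg (fun m => Psi k m (some (0, []))) h
  simp only [Psi_prod, word_act, Option.some.injEq, Prod.mk.injEq, true_and] at h1
  exact List.map_injective_iff.2 (expo_injective k) h1

theorem growth_lower (k n : ℕ) (hn : 1 ≤ n) : 2 ^ n ≤ growth (genSet k) ((k + 2) * n) := by
  have hinj : Function.Injective (fun q : Q k => (q : WithOne (Q k))) := by
    intro a b h
    exact WithOne.coe_inj.1 h
  have h1 : growth (genSet k) ((k + 2) * n) =
      ((fun q : Q k => (q : WithOne (Q k))) '' ball (genSet k) ((k + 2) * n)).ncard :=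
    (Set.ncard_image_of_injective _ hinj).symm
  let F : (Fin n → Bool) → WithOne (Q k) := fun e => ((word k (List.ofFn e)).map (gen1 k)).prod
  have hF : Function.Injective F := (word_injective k).comp List.ofFn_injective
  have h2 : (Set.range F).ncard = 2 ^ n := by
    rw [← Set.image_univ, Set.ncard_image_of_injective _ hF, Set.ncard_univ]
    simp
  rw [h1, ← h2]
  refine Set.ncard_le_ncard ?_ ((ball_finite (genSet_finite k) _).image _)
  rintro m ⟨e, rfl⟩
  -- the word is nonempty
  have hne : word k (List.ofFn e) ≠ [] := by
    cases hl : List.ofFn e with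
    | nil =>
      have : (List.ofFn e).length = n := List.length_ofFn
      rw [hl] at this
      simp at this
      omega
    | cons b l => simp [word]
  have hlen : (word k (List.ofFn e)).length ≤ (k + 2) * n := by
    have := word_length k (List.ofFn e)
    rwa [List.length_ofFn] at this
  obtain ⟨h, t, ht⟩ : ∃ h t, word k (List.ofFn e) = h :: t := by
    cases hw : word k (List.ofFn e) with
    | nil => exact absurd hw hne
    | cons h t => exact ⟨h, t, rfl⟩
  refine ⟨cls k ⟨h, t⟩, ?_, ?_⟩
  · rw [mem_ball_iff]
    refine ⟨(h :: t).map (gen k), by simp, ?_, ?_, ?_⟩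
    · intro y hy
      obtain ⟨i, _, rfl⟩ := List.mem_map.1 hy
      exact ⟨i, rfl⟩
    · rw [List.length_map, ← ht]; exact hlen
    · rw [coe_cls, List.map_map]; rfl
  · show ((cls k ⟨h, t⟩ : Q k) : WithOne (Q k)) = F e
    rw [coe_cls, ← ht]

theorem not_subexponential_example (k : ℕ) : ¬ Subexponential (growth (genSet k)) := by
  intro h
  set c : ℝ := (3 / 2 : ℝ) ^ ((1 : ℝ) / ((k : ℝ) + 2)) with hc
  have hk : (0 : ℝ) < (k : ℝ) + 2 := by positivity
  have hc1 : 1 < c := Real.one_lt_rpow (by norm_num) (by positivity)
  have hcC : c ^ (k + 2) = 3 / 2 := by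
    rw [hc, ← Real.rpow_natCast, ← Real.rpow_mul (by norm_num)]
    have : (1 : ℝ) / ((k : ℝ) + 2) * ((k + 2 : ℕ) : ℝ) = 1 := by
      push_cast; field_simp
    rw [this, Real.rpow_one]
  obtain ⟨N, hN⟩ := eventually_atTop.1 (h c hc1)
  have h1 := growth_lower k (N + 1) (by omega)
  have h2 := hN ((k + 2) * (N + 1)) (by nlinarith)
  rw [pow_mul, hcC] at h2
  have h3 : (2 : ℝ) ^ (N + 1) ≤ growth (genSet k) ((k + 2) * (N + 1)) := by exact_mod_cast h1
  have h4 : (3 / 2 : ℝ) ^ (N + 1) < 2 ^ (N + 1) :=
    pow_lt_pow_left₀ (by norm_num) (by norm_num) (by omega)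
  linarith

/-- Finitely presented semigroups of arbitrarily small exponential growth. -/
theorem exists_small_exponential (c : ℝ) (hc : 1 < c) :
    ∃ k : ℕ, (∃ A : ℝ, ∀ n, (growth (genSet k) n : ℝ) ≤ c ^ n * A) ∧
      ∃ d : ℝ, 1 < d ∧ ∀ n, 1 ≤ n → d ^ n < (growth (genSet k) n : ℝ) + 1 := by
  have h := tendsto_pow_const_div_const_pow_of_one_lt 2 hc
  have h2 : ∀ᶠ n : ℕ in atTop, (n : ℝ) ^ 2 / c ^ n < 1 / 4 :=
    h.eventually (gt_mem_nhds (by norm_num))
  obtain ⟨N, hN⟩ := eventually_atTop.1 h2
  let k : ℕ := N + 1
  refine ⟨k, ⟨growth (genSet k) (k + 1) + 1, fun n => ?_⟩, ?_⟩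
  · apply upper_of_bound (growth_mono (genSet_finite k)) (growth_add (genSet_finite k))
      (N := k + 1) (by omega) hc
    have h3 := hN (k + 1) (by omega)
    have hpos : 0 < c ^ (k + 1) := by positivity
    rw [div_lt_iff₀ hpos] at h3
    have h4 : (growth (genSet k) (k + 1) : ℝ) ≤ ((k : ℝ) + 2) + (((k : ℝ) + 1) * ((k : ℝ) + 1) + 1) := by
      exact_mod_cast growth_upper k
    push_cast at h3
    have h5 : (1 : ℝ) ≤ k := by
      have : 1 ≤ k := by omega
      exact_mod_cast this
    nlinarith
  · rcases dichotomy (growth_mono (genSet_finite k)) (growth_add (genSet_finite k)) with h | h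
    · exact absurd h (not_subexponential_example k)
    · exact h

end Pool.Agent.J6H52.Osc
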